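import Mathlib

set_option autoImplicit false

namespace Pool.Agent.Lib.MP_c5d8fa_lc

open scoped BigOperators

/-! ### LeadingOnes value of a predicate on levels -/

open Classical in
/-- number of levels in the maximal correct initial segment -/
noncomputable def LO {n : ℕ} (R : Fin n → Prop) : ℕ :=
  (Finset.univ.filter (fun i : Fin n => ∀ j : Fin n, j ≤ i → R j)).card

lemma LO_ge {n : ℕ} (R : Fin n → Prop) (k : ℕ) (hk : k ≤ n) :
    k ≤ LO R ↔ ∀ j : Fin n, (j : ℕ) < k → R j := by
  classical
  constructor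
  · intro h j hj
    by_contra hR
    have hsub : (Finset.univ.filter (fun i : Fin n => ∀ j : Fin n, j ≤ i → R j))
        ⊆ Finset.univ.filter (fun i : Fin n => i < j) := by
      intro i hi
      simp only [Finset.mem_filter, Finset.mem_univ, true_and] at hi ⊢
      by_contra hlt
      exact hR (hi j (not_lt.mp hlt))
    have hc := Finset.card_le_card hsub
    have hc2 : (Finset.univ.filter (fun i : Fin n => i < j)).card = (j : ℕ) := by
      have : (Finset.univ.filter (fun i : Fin n => i < j)) = Finset.Iio j := by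
        ext i; simp
      rw [this, Fin.card_Iio]
    have : LO R ≤ (j : ℕ) := by
      unfold LO
      rw [← hc2]
      convert hc
    omega
  · intro h
    have hsub : Finset.univ.filter (fun i : Fin n => (i : ℕ) < k)
        ⊆ (Finset.univ.filter (fun i : Fin n => ∀ j : Fin n, j ≤ i → R j)) := by
      intro i hi
      simp only [Finset.mem_filter, Finset.mem_univ, true_and] at hi ⊢
      intro j hj
      exact h j (lt_of_le_of_lt (by exact_mod_cast hj) hi)
    have hc := Finset.card_le_card hsub
    have hc2 : (Finset.univ.filter (fun i : Fin n => (i : ℕ) < k)).card = k := by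
      rw [Fin.card_filter_val_lt]
      exact min_eq_right hk
    rw [hc2] at hc
    unfold LO
    convert hc

lemma LO_le {n : ℕ} (R : Fin n → Prop) : LO R ≤ n := by
  classical
  unfold LO
  calc _ ≤ (Finset.univ : Finset (Fin n)).card := Finset.card_filter_le _ _
    _ = n := by simp

lemma minLO_eq {n : ℕ} (R R' : Fin n → Prop) (k : ℕ) (hk : k ≤ n)
    (h : ∀ k' ≤ k, (∀ j : Fin n, (j : ℕ) < k' → R j) ↔ (∀ j : Fin n, (j : ℕ) < k' → R' j)) :
    min (LO R) k = min (LO R') k := by
  have aux : ∀ (R R' : Fin n → Prop), (∀ k' ≤ k, (∀ j : Fin n, (j : ℕ) < k' → R j) →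
      (∀ j : Fin n, (j : ℕ) < k' → R' j)) → min (LO R) k ≤ min (LO R') k := by
    intro R R' h
    apply le_min _ (min_le_right _ _)
    rw [LO_ge R' _ ((min_le_right _ _).trans hk)]
    apply h _ (min_le_right _ _)
    rw [← LO_ge R _ ((min_le_right _ _).trans hk)]
    exact min_le_left _ _
  exact le_antisymm (aux R R' (fun k' hk' => (h k' hk').1)) (aux R' R (fun k' hk' => (h k' hk').2))

/-- If `R'` is weaker than `R` and the first violated level of `R` below `k` violates `R'`, the
truncated values agree. -/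
lemma minLO_eq' {n : ℕ} (R R' : Fin n → Prop) (k : ℕ) (hk : k ≤ n)
    (h1 : ∀ j : Fin n, (j : ℕ) < k → R j → R' j)
    (h2 : ∀ j : Fin n, (j : ℕ) < k → LO R = j → ¬ R' j) :
    min (LO R) k = min (LO R') k := by
  apply minLO_eq R R' k hk
  intro k' hk'
  constructor
  · intro h j hj
    exact h1 j (lt_of_lt_of_le hj hk') (h j hj)
  · intro h
    by_contra hcon
    have hlt : ¬ k' ≤ LO R := by
      rw [LO_ge R k' (hk'.trans hk)]
      exact hcon
    have hlt' : LO R < k' := not_le.mp hlt
    have hn : LO R < n := lt_of_lt_of_le hlt' (hk'.trans hk)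
    exact h2 ⟨LO R, hn⟩ (lt_of_lt_of_le hlt' hk') rfl (h ⟨LO R, hn⟩ hlt')

lemma LO_violates {n : ℕ} (R : Fin n → Prop) (j : Fin n) (h : LO R = j) : ¬ R j := by
  intro hR
  have h1 : (j : ℕ) + 1 ≤ LO R := by
    rw [LO_ge R _ j.2]
    intro i hi
    rcases Nat.lt_succ_iff_lt_or_eq.mp hi with h' | h'
    · have := (LO_ge R (j : ℕ) (le_of_lt j.2)).1 (le_of_eq h.symm)
      exact this i h'
    · have : i = j := Fin.ext h'
      rw [this]; exact hR
  omega

/-! ### Memory-limited deterministic runs -/

section Run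
variable {X O : Type*} (V : ℕ → O → X) (U : ℕ → O → ℕ → O)

/-- memory after `s` steps, starting at time `t` with memory `o`, objective `h` -/
def obf (h : X → ℕ) (t : ℕ) (o : O) : ℕ → O
  | 0 => o
  | s+1 => U (t+s) (obf h t o s) (h (V (t+s) (obf h t o s)))

/-- `s`-th query -/
def qf (h : X → ℕ) (t : ℕ) (o : O) (s : ℕ) : X := V (t+s) (obf V U h t o s)

lemma obf_zero (h : X → ℕ) (t : ℕ) (o : O) : obf V U h t o 0 = o := rfl

lemma obf_add (h : X → ℕ) (o : O) (t s : ℕ) :
    obf V U h 0 o (t+s) = obf V U h t (obf V U h 0 o t) s := by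
  induction s with
  | zero => rfl
  | succ s ih =>
    rw [← Nat.add_assoc]
    simp only [obf, Nat.zero_add, ih]

lemma qf_add (h : X → ℕ) (o : O) (t s : ℕ) :
    qf V U h 0 o (t+s) = qf V U h t (obf V U h 0 o t) s := by
  unfold qf
  rw [obf_add, Nat.zero_add]

lemma obf_agree (h h' : X → ℕ) (t : ℕ) (o : O) (T : ℕ)
    (hag : ∀ s < T, h' (qf V U h t o s) = h (qf V U h t o s)) :
    ∀ s ≤ T, obf V U h' t o s = obf V U h t o s := by
  intro s
  induction s with
  | zero => intro _; rfl
  | succ s ih =>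
    intro hs
    have h1 := ih (by omega)
    have h2 := hag s (by omega)
    unfold qf at h2
    simp only [obf, h1, h2]

lemma qf_agree (h h' : X → ℕ) (t : ℕ) (o : O) (T : ℕ)
    (hag : ∀ s < T, h' (qf V U h t o s) = h (qf V U h t o s)) :
    ∀ s ≤ T, qf V U h' t o s = qf V U h t o s := by
  intro s hs
  unfold qf
  rw [obf_agree V U h h' t o T hag s hs]

end Run

/-! ### positions -/

section Inst
variable {N r : ℕ}

/-- numbering of the base positions -/
def levFun (N r : ℕ) : (Fin N × Fin 3) ⊕ Fin r → Fin (3*N+r)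
  | Sum.inl (g, i) =>
      if h : (i : ℕ) = 0 then ⟨2*N + g, by have := g.2; omega⟩
      else ⟨2*g + (i - 1), by have := g.2; have := i.2; omega⟩
  | Sum.inr i => ⟨3*N + i, by have := i.2; omega⟩

lemma levFun_inj : Function.Injective (levFun N r) := by
  intro a b hab
  rcases a with ⟨g, i⟩ | i <;> rcases b with ⟨g', i'⟩ | i'
  · simp only [levFun] at hab
    have hg := g.2
    have hg' := g'.2
    have hi := i.2
    have hi' := i'.2
    have key : (g : ℕ) = g' ∧ (i : ℕ) = i' := by
      split_ifs at hab <;> simp only [Fin.mk.injEq] at hab <;> omega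
    have h1 : g = g' := Fin.ext key.1
    have h2 : i = i' := Fin.ext key.2
    rw [h1, h2]
  · simp only [levFun] at hab
    have hg := g.2
    have hi := i.2
    exfalso
    split_ifs at hab <;> simp only [Fin.mk.injEq] at hab <;> omega
  · simp only [levFun] at hab
    have hg' := g'.2
    have hi' := i'.2
    exfalso
    split_ifs at hab <;> simp only [Fin.mk.injEq] at hab <;> omega
  · simp only [levFun, Fin.mk.injEq] at hab
    have : i = i' := Fin.ext (by omega)
    rw [this]

/-- numbering equivalence -/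
noncomputable def lev (N r : ℕ) : (Fin N × Fin 3) ⊕ Fin r ≃ Fin (3*N+r) :=
  Equiv.ofBijective (levFun N r) (by
    rw [Fintype.bijective_iff_injective_and_card]
    refine ⟨levFun_inj, ?_⟩
    simp
    ring)

lemma lev_zero (g : Fin N) : ((lev N r (Sum.inl (g, 0)) : Fin (3*N+r)) : ℕ) = 2*N + g := by
  simp [lev, levFun]

lemma lev_ne_zero (g : Fin N) (i : Fin 3) (hi : i ≠ 0) :
    ((lev N r (Sum.inl (g, i)) : Fin (3*N+r)) : ℕ) < 2*N := by
  have h0 : (i : ℕ) ≠ 0 := fun h => hi (Fin.ext h)
  have := g.2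
  have := i.2
  simp only [lev, Equiv.ofBijective_apply, levFun, h0, dite_false]
  omega

/-- rotate the triples by `u` -/
def rot (u : Fin N → Fin 3) : Equiv.Perm ((Fin N × Fin 3) ⊕ Fin r) where
  toFun p := match p with
    | Sum.inl (g, i) => Sum.inl (g, i + u g)
    | Sum.inr i => Sum.inr i
  invFun p := match p with
    | Sum.inl (g, i) => Sum.inl (g, i - u g)
    | Sum.inr i => Sum.inr i
  left_inv p := by rcases p with ⟨g, i⟩ | i <;> simp
  right_inv p := by rcases p with ⟨g, i⟩ | i <;> simp

/-- permute the free elements by `τ` -/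
def perf (τ : Equiv.Perm (Fin N)) : Equiv.Perm ((Fin N × Fin 3) ⊕ Fin r) where
  toFun p := match p with
    | Sum.inl (g, i) => if i = 0 then Sum.inl (τ g, 0) else Sum.inl (g, i)
    | Sum.inr i => Sum.inr i
  invFun p := match p with
    | Sum.inl (g, i) => if i = 0 then Sum.inl (τ.symm g, 0) else Sum.inl (g, i)
    | Sum.inr i => Sum.inr i
  left_inv p := by
    rcases p with ⟨g, i⟩ | i
    · by_cases h : i = 0 <;> simp [h]
    · rfl
  right_inv p := by
    rcases p with ⟨g, i⟩ | i
    · by_cases h : i = 0 <;> simp [h]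
    · rfl

/-- the level order of the instance -/
noncomputable def sig (u : Fin N → Fin 3) (τ : Equiv.Perm (Fin N)) :
    Equiv.Perm (Fin (3*N+r)) :=
  (lev N r).symm.trans ((perf τ).trans ((rot u).trans (lev N r)))

lemma sig_ne_zero (u : Fin N → Fin 3) (τ : Equiv.Perm (Fin N)) (g : Fin N) (i : Fin 3)
    (hi : i ≠ 0) : sig (r := r) u τ (lev N r (Sum.inl (g, i))) = lev N r (Sum.inl (g, i + u g)) := by
  simp [sig, perf, rot, hi]

lemma sig_zero (u : Fin N → Fin 3) (τ : Equiv.Perm (Fin N)) (g : Fin N) :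
    sig (r := r) u τ (lev N r (Sum.inl (g, 0))) = lev N r (Sum.inl (τ g, u (τ g))) := by
  simp [sig, perf, rot]

/-- Every level below `2N` is `lev (g,i)` with `i ≠ 0`. -/
lemma level_cases (j : Fin (3*N+r)) :
    (∃ g i, i ≠ 0 ∧ j = lev N r (Sum.inl (g, i))) ∨
    (∃ g, j = lev N r (Sum.inl (g, 0))) ∨ 3*N ≤ (j : ℕ) := by
  obtain ⟨p, rfl⟩ := (lev N r).surjective j
  rcases p with ⟨g, i⟩ | i
  · by_cases h : i = 0
    · subst h; right; left; exact ⟨g, rfl⟩
    · left; exact ⟨g, i, h, rfl⟩
  · right; right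
    simp [lev, levFun]

end Inst

end Pool.Agent.Lib.MP_c5d8fa_lc
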