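import Mathlib
import Pool.Agent.Lib.MP_c5d8fa_lc.Det

set_option autoImplicit false
set_option linter.unusedSectionVars false

namespace Pool.Agent.Lib.MP_c5d8fa_lc

open scoped BigOperators
open Classical

section Inst
variable {N r : ℕ}

abbrev Str (N r : ℕ) := Fin (3*N+r) → Bool

/-- the objective function of the instance -/
noncomputable def FI (u : Fin N → Fin 3) (τ : Equiv.Perm (Fin N)) (z x : Str N r) : ℕ :=
  LO (fun j => x (sig u τ j) = z (sig u τ j))

/-- truncated objective function -/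
noncomputable def GI (k : ℕ) (u : Fin N → Fin 3) (τ : Equiv.Perm (Fin N)) (z x : Str N r) : ℕ :=
  min (FI u τ z x) k

/-- reconstructed predicate from a code -/
def RC (τ : Equiv.Perm (Fin N)) (y : Str N r) (c : Fin N → Option (Fin 3)) (x : Str N r)
    (j : Fin (3*N+r)) : Prop :=
  ∀ g i a, perf τ ((lev N r).symm j) = Sum.inl (g, i) → c g = some a →
    x (lev N r (Sum.inl (g, i + a))) = y (lev N r (Sum.inl (g, i + a)))

noncomputable def GC (k : ℕ) (τ : Equiv.Perm (Fin N)) (y : Str N r) (c : Fin N → Option (Fin 3))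
    (x : Str N r) : ℕ :=
  min (LO (RC τ y c x)) k

lemma exists_group (τ : Equiv.Perm (Fin N)) (j : Fin (3*N+r)) (hj : (j : ℕ) < 3*N) :
    ∃ g i, perf τ ((lev N r).symm j) = Sum.inl (g, i) := by
  rcases level_cases j with ⟨g, i, hi, rfl⟩ | ⟨g, rfl⟩ | h
  · exact ⟨g, i, by simp [perf, hi]⟩
  · exact ⟨τ g, 0, by simp [perf]⟩
  · omega

lemma sig_eq_of_group (u : Fin N → Fin 3) (τ : Equiv.Perm (Fin N)) (j : Fin (3*N+r))
    (g : Fin N) (i : Fin 3) (h : perf τ ((lev N r).symm j) = Sum.inl (g, i)) :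
    sig u τ j = lev N r (Sum.inl (g, i + u g)) := by
  simp [sig, h, rot]

lemma code_correct (k : ℕ) (hk : k ≤ 3*N) (u : Fin N → Fin 3) (τ : Equiv.Perm (Fin N))
    (z y x : Str N r) (c : Fin N → Option (Fin 3))
    (hc : ∀ g a, c g = some a → a = u g)
    (hy : ∀ j : Fin (3*N+r), (j : ℕ) < k → y (sig u τ j) = z (sig u τ j))
    (hx : ∀ j : Fin (3*N+r), (j : ℕ) < k → FI u τ z x = j →
      ∀ g i, perf τ ((lev N r).symm j) = Sum.inl (g, i) → c g ≠ none) :
    GI k u τ z x = GC k τ y c x := by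
  unfold GI GC FI
  apply minLO_eq' _ _ k (by omega)
  · intro j hj hR g i a hg hga
    have ha := hc g a hga
    subst ha
    rw [← sig_eq_of_group u τ j g i hg, hR, hy j hj]
  · intro j hj hLO hRC
    have hviol := LO_violates _ j hLO
    obtain ⟨g, i, hg⟩ := exists_group τ j (lt_of_lt_of_le hj hk)
    have hne := hx j hj hLO g i hg
    obtain ⟨a, ha⟩ := Option.ne_none_iff_exists'.mp hne
    have ha' := hc g a ha
    have := hRC g i a hg ha
    subst ha'
    rw [← sig_eq_of_group u τ j g i hg, hy j hj] at this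
    exact hviol this

lemma card_agree {ι : Type*} [Fintype ι] [DecidableEq ι] {κ : Type*} [Fintype κ]
    (S : Finset ι) (y : ι → κ) :
    (Finset.univ.filter (fun z : ι → κ => ∀ p ∈ S, z p = y p)).card
      = (Fintype.card κ) ^ (Fintype.card ι - S.card) := by
  have h : (Finset.univ.filter (fun z : ι → κ => ∀ p ∈ S, z p = y p))
      = Fintype.piFinset (fun p => if p ∈ S then {y p} else Finset.univ) := by
    ext z
    simp only [Finset.mem_filter, Finset.mem_univ, true_and, Fintype.mem_piFinset]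
    constructor
    · intro h p
      by_cases hp : p ∈ S
      · simp [hp, h p hp]
      · simp [hp]
    · intro h p hp
      have := h p
      simpa [hp] using this
  rw [h, Fintype.card_piFinset]
  have h2 : ∀ p, (if p ∈ S then ({y p} : Finset κ) else Finset.univ).card
      = if p ∈ S then 1 else Fintype.card κ := by
    intro p
    by_cases hp : p ∈ S <;> simp [hp]
  simp_rw [h2]
  rw [Finset.prod_ite]
  simp only [Finset.prod_const_one, one_mul, Finset.prod_const]
  congr 1
  rw [Finset.filter_not, Finset.card_sdiff]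
  simp

lemma card_z (k : ℕ) (hk : k ≤ 3*N+r) (u : Fin N → Fin 3) (τ : Equiv.Perm (Fin N))
    (y : Str N r) :
    (Finset.univ.filter (fun z : Str N r =>
      ∀ j : Fin (3*N+r), (j : ℕ) < k → y (sig u τ j) = z (sig u τ j))).card
      = 2 ^ (3*N+r-k) := by
  have h := card_agree (κ := Bool) ((Finset.univ.filter (fun j : Fin (3*N+r) => (j : ℕ) < k)).map
    (sig u τ).toEmbedding) y
  rw [Finset.card_map, Fin.card_filter_val_lt, Fintype.card_fin, Fintype.card_bool,
    min_eq_right hk] at h
  rw [← h]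
  congr 1
  ext z
  simp only [Finset.mem_filter, Finset.mem_univ, true_and, Finset.mem_map,
    Equiv.coe_toEmbedding, forall_exists_index, and_imp]
  constructor
  · rintro h p j hj rfl
    exact (h j hj).symm
  · intro h j hj
    exact (h _ j hj rfl).symm

lemma card_B (k : ℕ) (hk : k ≤ 3*N+r) (τ : Equiv.Perm (Fin N))
    (y : Str N r) (A : Finset (Fin N)) (ι : Fin N → Fin 3) :
    (Finset.univ.filter (fun uz : (Fin N → Fin 3) × Str N r =>
      (∀ j : Fin (3*N+r), (j : ℕ) < k → y (sig uz.1 τ j) = uz.2 (sig uz.1 τ j)) ∧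
      (∀ a ∈ A, uz.1 a = ι a))).card = 3 ^ (N - A.card) * 2 ^ (3*N+r-k) := by
  have h3 := card_agree (κ := Fin 3) A ι
  rw [Fintype.card_fin, Fintype.card_fin] at h3
  rw [← h3]
  rw [Finset.card_filter, ← Finset.univ_product_univ, Finset.sum_product]
  have : ∀ u : Fin N → Fin 3, (∑ z : Str N r, if ((∀ j : Fin (3*N+r), (j : ℕ) < k →
      y (sig u τ j) = z (sig u τ j)) ∧ (∀ a ∈ A, u a = ι a)) then 1 else 0)
      = if (∀ a ∈ A, u a = ι a) then 2 ^ (3*N+r-k) else 0 := by
    intro u
    by_cases hu : ∀ a ∈ A, u a = ι a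
    · rw [if_pos hu, ← card_z k hk u τ y, Finset.card_filter]
      apply Finset.sum_congr rfl
      intro z _
      congr 1
      simp only [eq_iff_iff, and_iff_left_iff_imp]
      intro _; exact hu
    · rw [if_neg hu]
      apply Finset.sum_eq_zero
      intro z _
      rw [if_neg]
      tauto
  simp only [this]
  rw [← Finset.sum_filter, Finset.sum_const, smul_eq_mul]
  congr!

/-! ### codes and the bad set -/

section Code
variable {O : Type*} [Fintype O] (V : ℕ → O → Str N r) (U : ℕ → O → ℕ → O)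

/-- triples in which some query during the next `m` steps that agrees with the reference up to
level `k` differs from the reference query -/
noncomputable def FS (m k : ℕ) (h : Str N r → ℕ) (t : ℕ) (o : O) : Finset (Fin N) :=
  Finset.univ.filter (fun a => ∃ i : Fin 3, ∃ s, 1 ≤ s ∧ s ≤ m ∧ k ≤ h (qf V U h t o s) ∧
    qf V U h t o s (lev N r (Sum.inl (a, i))) ≠ qf V U h t o 0 (lev N r (Sum.inl (a, i))))

def Bad (o0 : O) (H m k φ : ℕ) (u : Fin N → Fin 3) (τ : Equiv.Perm (Fin N)) (z : Str N r) : Prop :=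
  ∃ t < H, k ≤ GI k u τ z (qf V U (GI k u τ z) 0 o0 t) ∧
    φ ≤ (FS V U m k (GI k u τ z) t (obf V U (GI k u τ z) 0 o0 t)).card

/-- the group of the first wrong level, as a finset -/
noncomputable def grp (k : ℕ) (u : Fin N → Fin 3) (τ : Equiv.Perm (Fin N)) (z x : Str N r) :
    Finset (Fin N) :=
  Finset.univ.filter (fun g => ∃ j : Fin (3*N+r), (j : ℕ) < k ∧ FI u τ z x = j ∧
    ∃ i, perf τ ((lev N r).symm j) = Sum.inl (g, i))

lemma grp_card (k : ℕ) (u : Fin N → Fin 3) (τ : Equiv.Perm (Fin N)) (z x : Str N r) :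
    (grp k u τ z x).card ≤ 1 := by
  rw [Finset.card_le_one]
  intro a ha b hb
  simp only [grp, Finset.mem_filter, Finset.mem_univ, true_and] at ha hb
  obtain ⟨j, _, hj, i, hi⟩ := ha
  obtain ⟨j', _, hj', i', hi'⟩ := hb
  have : j = j' := Fin.ext (by omega)
  subst this
  rw [hi] at hi'
  simp only [Sum.inl.injEq, Prod.mk.injEq] at hi'
  exact hi'.1

/-- the code of an instance at time `t` -/
noncomputable def codeC (m k : ℕ) (t : ℕ) (o : O) (u : Fin N → Fin 3) (τ : Equiv.Perm (Fin N))
    (z : Str N r) : Fin N → Option (Fin 3) := fun g =>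
  if g ∈ (Finset.Icc 1 m).biUnion (fun s => grp k u τ z (qf V U (GI k u τ z) t o s))
    then some (u g) else none

lemma codeC_supp (m k : ℕ) (t : ℕ) (o : O) (u : Fin N → Fin 3) (τ : Equiv.Perm (Fin N))
    (z : Str N r) :
    (Finset.univ.filter (fun g => codeC V U m k t o u τ z g ≠ none)).card ≤ m := by
  have hsub : (Finset.univ.filter (fun g => codeC V U m k t o u τ z g ≠ none)) ⊆
      (Finset.Icc 1 m).biUnion (fun s => grp k u τ z (qf V U (GI k u τ z) t o s)) := by
    intro g hg
    rw [Finset.mem_filter] at hg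
    have hg2 := hg.2
    unfold codeC at hg2
    by_contra hcon
    rw [if_neg hcon] at hg2
    exact hg2 rfl
  refine (Finset.card_le_card hsub).trans ?_
  refine (Finset.card_biUnion_le_card_mul _ _ 1 (fun s _ => grp_card k u τ z _)).trans ?_
  simp

lemma code_agree (m k : ℕ) (hk : k ≤ 3*N) (t : ℕ) (o : O) (u : Fin N → Fin 3)
    (τ : Equiv.Perm (Fin N)) (z : Str N r)
    (hy : k ≤ GI k u τ z (qf V U (GI k u τ z) t o 0)) :
    ∀ s ≤ m, GC k τ (V t o) (codeC V U m k t o u τ z) (qf V U (GI k u τ z) t o s)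
      = GI k u τ z (qf V U (GI k u τ z) t o s) := by
  have hV : qf V U (GI k u τ z) t o 0 = V t o := by simp [qf, obf]
  have hy' : ∀ j : Fin (3*N+r), (j : ℕ) < k → V t o (sig u τ j) = z (sig u τ j) := by
    rw [hV] at hy
    have : k ≤ FI u τ z (V t o) := le_trans hy (min_le_left _ _)
    unfold FI at this
    rwa [LO_ge _ k (by omega)] at this
  intro s hs
  symm
  apply code_correct k hk u τ z (V t o) _ _ _ hy'
  · intro j hj hF g i hg
    rcases Nat.eq_zero_or_pos s with h0 | hpos
    · subst h0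
      exfalso
      have : k ≤ FI u τ z (qf V U (GI k u τ z) t o 0) := le_trans hy (min_le_left _ _)
      omega
    · have hmem : g ∈ (Finset.Icc 1 m).biUnion
          (fun s => grp k u τ z (qf V U (GI k u τ z) t o s)) := by
        rw [Finset.mem_biUnion]
        refine ⟨s, by simp; omega, ?_⟩
        simp only [grp, Finset.mem_filter, Finset.mem_univ, true_and]
        exact ⟨j, hj, hF, i, hg⟩
      simp [codeC, hmem]
  · intro g a hga
    simp only [codeC] at hga
    split_ifs at hga
    exact (Option.some.inj hga).symm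

lemma FS_eq (m k : ℕ) (hk : k ≤ 3*N) (t : ℕ) (o : O) (u : Fin N → Fin 3)
    (τ : Equiv.Perm (Fin N)) (z : Str N r)
    (hy : k ≤ GI k u τ z (qf V U (GI k u τ z) t o 0)) :
    FS V U m k (GC k τ (V t o) (codeC V U m k t o u τ z)) t o
      = FS V U m k (GI k u τ z) t o := by
  have h1 := code_agree V U m k hk t o u τ z hy
  have h2 := qf_agree V U (GI k u τ z) (GC k τ (V t o) (codeC V U m k t o u τ z)) t o m
    (fun s hs => h1 s (le_of_lt hs))
  ext a
  simp only [FS, Finset.mem_filter, Finset.mem_univ, true_and]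
  constructor
  · rintro ⟨i, s, hs1, hsm, hks, hne⟩
    refine ⟨i, s, hs1, hsm, ?_, ?_⟩
    · rw [h2 s hsm, h1 s hsm] at hks; exact hks
    · rw [h2 s hsm, h2 0 (Nat.zero_le _)] at hne; exact hne
  · rintro ⟨i, s, hs1, hsm, hks, hne⟩
    refine ⟨i, s, hs1, hsm, ?_, ?_⟩
    · rw [h2 s hsm, h1 s hsm]; exact hks
    · rw [h2 s hsm, h2 0 (Nat.zero_le _)]; exact hne

/-- the free index determined by a code in triple `a` -/
noncomputable def freeIdx (m k : ℕ) (h : Str N r → ℕ) (t : ℕ) (o : O) (a : Fin N) : Fin 3 :=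
  if hh : ∃ i : Fin 3, ∃ s, 1 ≤ s ∧ s ≤ m ∧ k ≤ h (qf V U h t o s) ∧
    qf V U h t o s (lev N r (Sum.inl (a, i))) ≠ qf V U h t o 0 (lev N r (Sum.inl (a, i)))
  then hh.choose else 0

lemma free_unique (m k : ℕ) (hk : 2*N ≤ k) (hk3 : k ≤ 3*N) (t : ℕ) (o : O) (u : Fin N → Fin 3)
    (τ : Equiv.Perm (Fin N)) (z : Str N r)
    (hy : k ≤ GI k u τ z (qf V U (GI k u τ z) t o 0)) (a : Fin N) (i : Fin 3) (s : ℕ)
    (hks : k ≤ GI k u τ z (qf V U (GI k u τ z) t o s))
    (hne : qf V U (GI k u τ z) t o s (lev N r (Sum.inl (a, i)))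
      ≠ qf V U (GI k u τ z) t o 0 (lev N r (Sum.inl (a, i)))) : u a = i := by
  by_contra hcon
  have h1 : k ≤ FI u τ z (qf V U (GI k u τ z) t o 0) := le_trans hy (min_le_left _ _)
  have h2 : k ≤ FI u τ z (qf V U (GI k u τ z) t o s) := le_trans hks (min_le_left _ _)
  unfold FI at h1 h2
  rw [LO_ge _ k (by omega)] at h1 h2
  have hi : i - u a ≠ 0 := by
    intro h
    apply hcon
    have := sub_eq_zero.mp h
    exact this.symm
  have hlt := lev_ne_zero (r := r) a (i - u a) hi
  have e1 := h1 (lev N r (Sum.inl (a, i - u a))) (by omega)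
  have e2 := h2 (lev N r (Sum.inl (a, i - u a))) (by omega)
  rw [sig_ne_zero u τ a _ hi, sub_add_cancel] at e1 e2
  rw [e1, e2] at hne
  exact hne rfl

/-- the set of admissible codes -/
noncomputable def Codes (H m k φ : ℕ) (τ : Equiv.Perm (Fin N)) :
    Finset (ℕ × O × (Fin N → Option (Fin 3))) :=
  (Finset.range H ×ˢ (Finset.univ ×ˢ
    Finset.univ.filter (fun c => (Finset.univ.filter (fun g => c g ≠ none)).card ≤ m))).filter
      (fun κ => φ ≤ (FS V U m k (GC k τ (V κ.1 κ.2.1) κ.2.2) κ.1 κ.2.1).card)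

lemma bad_sub (o0 : O) (H m k φ : ℕ) (hk : 2*N ≤ k) (hk3 : k ≤ 3*N) (τ : Equiv.Perm (Fin N)) :
    (Finset.univ.filter (fun uz : (Fin N → Fin 3) × Str N r => Bad V U o0 H m k φ uz.1 τ uz.2)) ⊆
    (Codes V U H m k φ τ).biUnion (fun κ =>
      Finset.univ.filter (fun uz : (Fin N → Fin 3) × Str N r =>
      (∀ j : Fin (3*N+r), (j : ℕ) < k → (V κ.1 κ.2.1) (sig uz.1 τ j) = uz.2 (sig uz.1 τ j)) ∧
      (∀ a ∈ FS V U m k (GC k τ (V κ.1 κ.2.1) κ.2.2) κ.1 κ.2.1,
        uz.1 a = freeIdx V U m k (GC k τ (V κ.1 κ.2.1) κ.2.2) κ.1 κ.2.1 a))) := by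
  rintro ⟨u, z⟩ huz
  simp only [Finset.mem_filter, Finset.mem_univ, true_and] at huz
  obtain ⟨t, ht, hkt, hφ⟩ := huz
  set o := obf V U (GI k u τ z) 0 o0 t with ho
  have hq : qf V U (GI k u τ z) 0 o0 t = qf V U (GI k u τ z) t o 0 := by
    have := qf_add V U (GI k u τ z) o0 t 0
    simpa using this
  rw [hq] at hkt
  rw [Finset.mem_biUnion]
  refine ⟨(t, o, codeC V U m k t o u τ z), ?_, ?_⟩
  · simp only [Codes, Finset.mem_filter, Finset.mem_product, Finset.mem_range, Finset.mem_univ,
      true_and]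
    refine ⟨⟨ht, codeC_supp V U m k t o u τ z⟩, ?_⟩
    rw [FS_eq V U m k hk3 t o u τ z hkt]
    exact hφ
  · simp only [Finset.mem_filter, Finset.mem_univ, true_and]
    constructor
    · have hV : qf V U (GI k u τ z) t o 0 = V t o := by simp [qf, obf]
      rw [hV] at hkt
      have : k ≤ FI u τ z (V t o) := le_trans hkt (min_le_left _ _)
      unfold FI at this
      rwa [LO_ge _ k (by omega)] at this
    · intro a ha
      have h1 := code_agree V U m k hk3 t o u τ z hkt
      have h2 := qf_agree V U (GI k u τ z) (GC k τ (V t o) (codeC V U m k t o u τ z)) t o m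
        (fun s hs => h1 s (le_of_lt hs))
      simp only [FS, Finset.mem_filter, Finset.mem_univ, true_and] at ha
      unfold freeIdx
      rw [dif_pos ha]
      obtain ⟨s, hs1, hsm, hks, hne⟩ := ha.choose_spec
      generalize ha.choose = i at hne ⊢
      rw [h2 s hsm, h1 s hsm] at hks
      rw [h2 s hsm, h2 0 (Nat.zero_le _)] at hne
      exact free_unique V U m k hk hk3 t o u τ z hkt a _ s hks hne

lemma card_small_supp (m : ℕ) :
    ((Finset.univ.filter (fun c : Fin N → Option (Fin 3) =>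
      (Finset.univ.filter (fun g => c g ≠ none)).card ≤ m)).card : ℝ) ≤ 32^m * (35/32)^N := by
  have h := Finset.prod_univ_sum (fun _ : Fin N => (Finset.univ : Finset (Option (Fin 3))))
    (fun _ o => if o = none then (1:ℝ) else 1/32)
  rw [Fintype.piFinset_univ] at h
  have h1 : ∏ _i : Fin N, ∑ j : Option (Fin 3), (if j = none then (1:ℝ) else 1/32)
      = (35/32)^N := by
    simp [Finset.prod_const, Fintype.sum_option]
    norm_num
  rw [h1] at h
  have h2 : ∀ c : Fin N → Option (Fin 3), ∏ i, (if c i = none then (1:ℝ) else 1/32)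
      = (1/32)^((Finset.univ.filter (fun g => c g ≠ none)).card) := by
    intro c
    rw [Finset.prod_ite]
    simp
  simp_rw [h2] at h
  have h3 : ((Finset.univ.filter (fun c : Fin N → Option (Fin 3) =>
      (Finset.univ.filter (fun g => c g ≠ none)).card ≤ m)).card : ℝ) * (1/32)^m
      ≤ ∑ c : Fin N → Option (Fin 3), (1/32:ℝ)^((Finset.univ.filter (fun g => c g ≠ none)).card) := by
    rw [← nsmul_eq_mul, ← Finset.sum_const]
    calc _ ≤ ∑ c ∈ Finset.univ.filter (fun c : Fin N → Option (Fin 3) =>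
      (Finset.univ.filter (fun g => c g ≠ none)).card ≤ m),
          (1/32:ℝ)^((Finset.univ.filter (fun g => c g ≠ none)).card) := by
          apply Finset.sum_le_sum
          intro c hc
          simp only [Finset.mem_filter, Finset.mem_univ, true_and] at hc
          exact pow_le_pow_of_le_one (by norm_num) (by norm_num) hc
      _ ≤ _ := Finset.sum_le_sum_of_subset_of_nonneg (Finset.filter_subset _ _)
          (fun _ _ _ => by positivity)
  rw [← h] at h3
  have h4 : (32:ℝ)^m * (1/32)^m = 1 := by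
    rw [← mul_pow]; norm_num
  calc _ = ((Finset.univ.filter (fun c : Fin N → Option (Fin 3) =>
      (Finset.univ.filter (fun g => c g ≠ none)).card ≤ m)).card : ℝ) * (1/32)^m * 32^m := by
        rw [mul_assoc, mul_comm ((1/32:ℝ)^m), h4, mul_one]
    _ ≤ (35/32)^N * 32^m := by gcongr
    _ = _ := by ring

theorem card_bad (o0 : O) (H m k φ : ℕ) (hk : 2*N ≤ k) (hk3 : k ≤ 3*N)
    (τ : Equiv.Perm (Fin N)) :
    ((Finset.univ.filter (fun uz : (Fin N → Fin 3) × Str N r =>
      Bad V U o0 H m k φ uz.1 τ uz.2)).card : ℝ)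
    ≤ H * (Fintype.card O) * (32^m * (35/32)^N) * (3^(N-φ) * 2^(N+r)) := by
  have h1 := Finset.card_le_card (bad_sub V U o0 H m k φ hk hk3 τ (r := r))
  have h2 := h1.trans (Finset.card_biUnion_le_card_mul _ _ (3^(N-φ) * 2^(N+r)) (by
    intro κ hκ
    rw [card_B k (by omega)]
    simp only [Codes, Finset.mem_filter] at hκ
    gcongr
    · norm_num
    · exact hκ.2
    · norm_num
    · omega))
  have h3 : ((Codes V U H m k φ τ).card : ℝ) ≤ H * (Fintype.card O) * (32^m * (35/32)^N) := by
    have : (Codes V U H m k φ τ).card ≤ H * (Fintype.card O *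
        (Finset.univ.filter (fun c : Fin N → Option (Fin 3) =>
        (Finset.univ.filter (fun g => c g ≠ none)).card ≤ m)).card) := by
      unfold Codes
      refine (Finset.card_filter_le _ _).trans ?_
      rw [Finset.card_product, Finset.card_product, Finset.card_range, Finset.card_univ]
    calc ((Codes V U H m k φ τ).card : ℝ) ≤ ((H * (Fintype.card O *
        (Finset.univ.filter (fun c : Fin N → Option (Fin 3) =>
        (Finset.univ.filter (fun g => c g ≠ none)).card ≤ m)).card) : ℕ) : ℝ) := by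
          exact_mod_cast this
      _ = H * (Fintype.card O) * ((Finset.univ.filter (fun c : Fin N → Option (Fin 3) =>
        (Finset.univ.filter (fun g => c g ≠ none)).card ≤ m)).card : ℝ) := by
          push_cast; ring
      _ ≤ _ := by
          gcongr
          exact card_small_supp m
  calc ((Finset.univ.filter (fun uz : (Fin N → Fin 3) × Str N r =>
      Bad V U o0 H m k φ uz.1 τ uz.2)).card : ℝ)
      ≤ (((Codes V U H m k φ τ).card * (3^(N-φ) * 2^(N+r)) : ℕ) : ℝ) := by exact_mod_cast h2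
    _ = ((Codes V U H m k φ τ).card : ℝ) * (3^(N-φ) * 2^(N+r)) := by push_cast; ring
    _ ≤ _ := by gcongr

end Code

end Inst

end Pool.Agent.Lib.MP_c5d8fa_lc
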