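import Mathlib

set_option autoImplicit false

namespace Pool.Agent.Lib.MP_c5d8fa_lc

open scoped BigOperators ENNReal

section PiW
variable {S Y : Type*} [Fintype S] [DecidableEq S] [Fintype Y]

/-- The product weight of a choice function. -/
noncomputable def piW (p : S → PMF Y) (V : S → Y) : ℝ≥0∞ := ∏ s, p s (V s)

lemma piW_eval (p : S → PMF Y) (s : S) (G : Y → ℝ≥0∞) :
    ∑ V : S → Y, piW p V * G (V s) = ∑ y, p s y * G y := by
  classical
  have key : ∀ V : S → Y, piW p V * G (V s)
      = ∏ s', (p s' (V s') * (if s' = s then G (V s') else 1)) := by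
    intro V
    rw [Finset.prod_mul_distrib, Finset.prod_ite_eq' Finset.univ s (fun s' => G (V s'))]
    simp [piW]
  simp_rw [key]
  have h := Finset.prod_univ_sum (fun _ : S => (Finset.univ : Finset Y))
    (fun s' y => p s' y * (if s' = s then G y else 1))
  rw [Fintype.piFinset_univ] at h
  rw [← h]
  rw [Finset.prod_eq_single s]
  · simp
  · intro b _ hb
    simp only [hb, if_false, mul_one]
    have := (p b).tsum_coe
    rw [tsum_fintype] at this
    exact this
  · intro h; exact absurd (Finset.mem_univ s) h

lemma piW_sum (p : S → PMF Y) : ∑ V : S → Y, piW p V = 1 := by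
  classical
  have h := Finset.prod_univ_sum (fun _ : S => (Finset.univ : Finset Y))
    (fun s' y => p s' y)
  rw [Fintype.piFinset_univ] at h
  unfold piW
  rw [← h]
  apply Finset.prod_eq_one
  intro b _
  have := (p b).tsum_coe
  rw [tsum_fintype] at this
  exact this

end PiW

section Chain
variable {X Ix : Type*} [Fintype X] [DecidableEq X] [Fintype Ix] {m : ℕ}

/-- One step of the randomised algorithm on the law of (stored point, finished flag). -/
noncomputable def stepP (vary : X → ℕ → PMF X) (sel : X → ℕ → X → ℕ → PMF Bool)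
    (f : X → ℕ) (z : X) (p : PMF (X × Bool)) : PMF (X × Bool) :=
  p.bind (fun s => if s.2 = true then PMF.pure s else
    (vary s.1 (f s.1)).bind (fun y =>
      (sel s.1 (f s.1) y (f y)).bind (fun b =>
        PMF.pure (if b = true then y else s.1, decide (y = z)))))

lemma stepP_iter_bind (vary : X → ℕ → PMF X) (sel : X → ℕ → X → ℕ → PMF Bool)
    (f : X → ℕ) (z : X) (t : ℕ) : ∀ (p : PMF (X × Bool)),
    (stepP vary sel f z)^[t] p = p.bind (fun s => (stepP vary sel f z)^[t] (PMF.pure s)) := by
  induction t with
  | zero => intro p; simp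
  | succ t ih =>
    intro p
    rw [Function.iterate_succ_apply, ih]
    have : ∀ s, (stepP vary sel f z)^[t+1] (PMF.pure s)
        = (stepP vary sel f z (PMF.pure s)).bind
            (fun s' => (stepP vary sel f z)^[t] (PMF.pure s')) := by
      intro s
      rw [Function.iterate_succ_apply, ih]
    simp_rw [this]
    unfold stepP
    simp [PMF.bind_bind]

/-- Probability of being unfinished after `t` steps from state `s`. -/
noncomputable def val (vary : X → ℕ → PMF X) (sel : X → ℕ → X → ℕ → PMF Bool)
    (f : X → ℕ) (z : X) (t : ℕ) (s : X × Bool) : ℝ≥0∞ :=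
  ∑ w : X, ((stepP vary sel f z)^[t] (PMF.pure s)) (w, false)

lemma val_bind (vary : X → ℕ → PMF X) (sel : X → ℕ → X → ℕ → PMF Bool)
    (f : X → ℕ) (z : X) (t : ℕ) (p : PMF (X × Bool)) :
    ∑ w : X, ((stepP vary sel f z)^[t] p) (w, false)
      = ∑ s, p s * val vary sel f z t s := by
  rw [stepP_iter_bind]
  simp_rw [PMF.bind_apply, tsum_fintype, val, Finset.mul_sum]
  rw [Finset.sum_comm]

lemma val_zero (vary : X → ℕ → PMF X) (sel : X → ℕ → X → ℕ → PMF Bool)
    (f : X → ℕ) (z : X) (s : X × Bool) :
    val vary sel f z 0 s = if s.2 = false then 1 else 0 := by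
  obtain ⟨x, b⟩ := s
  unfold val
  cases b <;> simp [PMF.pure_apply, Prod.ext_iff]

lemma val_succ_true (vary : X → ℕ → PMF X) (sel : X → ℕ → X → ℕ → PMF Bool)
    (f : X → ℕ) (z : X) (t : ℕ) (x : X) :
    val vary sel f z (t+1) (x, true) = val vary sel f z t (x, true) := by
  unfold val
  simp only [Function.iterate_succ_apply]
  have : stepP vary sel f z (PMF.pure (x, true)) = PMF.pure (x, true) := by
    unfold stepP; simp
  rw [this]

lemma sum_pure_mul {α : Type*} [Fintype α] (a : α) (g : α → ℝ≥0∞) :
    ∑ s, (PMF.pure a) s * g s = g a := by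
  classical
  rw [Finset.sum_eq_single a]
  · simp
  · intro b _ hb; simp [PMF.pure_apply, hb]
  · intro h; exact absurd (Finset.mem_univ a) h

lemma sum_bind_mul {α β : Type*} [Fintype α] [Fintype β] (p : PMF α) (q : α → PMF β)
    (g : β → ℝ≥0∞) :
    ∑ s, (p.bind q) s * g s = ∑ a, p a * ∑ s, q a s * g s := by
  simp_rw [PMF.bind_apply, tsum_fintype, Finset.sum_mul, Finset.mul_sum]
  rw [Finset.sum_comm]
  simp_rw [mul_assoc]

lemma val_succ_false (vary : X → ℕ → PMF X) (sel : X → ℕ → X → ℕ → PMF Bool)
    (f : X → ℕ) (z : X) (t : ℕ) (x : X) :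
    val vary sel f z (t+1) (x, false)
      = ∑ y, vary x (f x) y * ∑ b, sel x (f x) y (f y) b *
          val vary sel f z t (if b = true then y else x, decide (y = z)) := by
  have h1 : val vary sel f z (t+1) (x, false)
      = ∑ w : X, ((stepP vary sel f z)^[t] (stepP vary sel f z (PMF.pure (x, false)))) (w, false) := by
    unfold val
    simp only [Function.iterate_succ_apply]
  rw [h1, val_bind]
  have h2 : stepP vary sel f z (PMF.pure (x, false)) = (vary x (f x)).bind (fun y =>
      (sel x (f x) y (f y)).bind (fun b =>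
        PMF.pure (if b = true then y else x, decide (y = z)))) := by
    unfold stepP; simp
  rw [h2, sum_bind_mul]
  simp_rw [sum_bind_mul, sum_pure_mul]

/-- A deterministic policy: variation and selection. -/
abbrev Pol (X : Type*) (m : ℕ) := (X × Fin m → X) × (X × Fin m × X × Fin m → Bool)

/-- Deterministic (frozen when finished) step. -/
def dstep (f : X → Fin m) (z : X) (θ : Pol X m) (s : X × Bool) : X × Bool :=
  if s.2 = true then s else
    (if θ.2 (s.1, f s.1, θ.1 (s.1, f s.1), f (θ.1 (s.1, f s.1))) = true
      then θ.1 (s.1, f s.1) else s.1, decide (θ.1 (s.1, f s.1) = z))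

/-- Deterministic run. -/
def drun (f : X → Fin m) (z : X) : (ℕ → Pol X m) → ℕ → X × Bool → X × Bool
  | _, 0, s => s
  | θ, t+1, s => drun f z (fun i => θ (i+1)) t (dstep f z (θ 0) s)

noncomputable def polV (vary : X → ℕ → PMF X) : X × Fin m → PMF X := fun a => vary a.1 a.2
noncomputable def polS (sel : X → ℕ → X → ℕ → PMF Bool) : X × Fin m × X × Fin m → PMF Bool :=
  fun a => sel a.1 a.2.1 a.2.2.1 a.2.2.2

lemma val_step_avg (vary : X → ℕ → PMF X) (sel : X → ℕ → X → ℕ → PMF Bool)
    (f : X → Fin m) (z : X) (t : ℕ) (s : X × Bool) :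
    val vary sel (fun x => (f x : ℕ)) z (t+1) s
      = ∑ V : X × Fin m → X, piW (polV vary) V *
          ∑ S : X × Fin m × X × Fin m → Bool, piW (polS sel) S *
            val vary sel (fun x => (f x : ℕ)) z t (dstep f z (V, S) s) := by
  classical
  obtain ⟨x, b⟩ := s
  cases b with
  | true =>
    rw [val_succ_true]
    have : ∀ (V : X × Fin m → X) (S : X × Fin m × X × Fin m → Bool),
        dstep f z (V, S) (x, true) = (x, true) := by
      intro V S; simp [dstep]
    simp_rw [this, ← Finset.sum_mul, piW_sum, one_mul]
  | false =>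
    rw [val_succ_false]
    have : ∀ (V : X × Fin m → X) (S : X × Fin m × X × Fin m → Bool),
        dstep f z (V, S) (x, false) = (if S (x, f x, V (x, f x), f (V (x, f x))) = true
          then V (x, f x) else x, decide (V (x, f x) = z)) := by
      intro V S; simp [dstep]
    simp_rw [this]
    have h1 : ∀ V : X × Fin m → X,
        ∑ S : X × Fin m × X × Fin m → Bool, piW (polS sel) S *
            val vary sel (fun x => (f x : ℕ)) z t
              (if S (x, f x, V (x, f x), f (V (x, f x))) = true
                then V (x, f x) else x, decide (V (x, f x) = z))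
        = ∑ b, sel x (f x) (V (x, f x)) (f (V (x, f x))) b *
            val vary sel (fun x => (f x : ℕ)) z t
              (if b = true then V (x, f x) else x, decide (V (x, f x) = z)) := by
      intro V
      exact piW_eval (polS sel) (x, f x, V (x, f x), f (V (x, f x)))
        (fun b => val vary sel (fun x => (f x : ℕ)) z t
              (if b = true then V (x, f x) else x, decide (V (x, f x) = z)))
    simp_rw [h1]
    exact (piW_eval (polV vary) (x, f x) (fun y => ∑ b, sel x (f x) y (f y) b *
            val vary sel (fun x => (f x : ℕ)) z t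
              (if b = true then y else x, decide (y = z)))).symm

lemma derand_aux (vary : X → ℕ → PMF X) (sel : X → ℕ → X → ℕ → PMF Bool)
    (f : Ix → X → Fin m) (z : Ix → X) (C : ℝ≥0∞) (t : ℕ) :
    ∀ (s : Ix → X × Bool),
    (∀ θ : ℕ → Pol X m, C ≤ ∑ i, (if (drun (f i) (z i) θ t (s i)).2 = false then (1:ℝ≥0∞) else 0)) →
    C ≤ ∑ i, val vary sel (fun x => (f i x : ℕ)) (z i) t (s i) := by
  classical
  induction t with
  | zero =>
    intro s h
    simp_rw [val_zero]
    have θ0 : ℕ → Pol X m := fun _ => (fun a => a.1, fun _ => true)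
    exact h θ0
  | succ t ih =>
    intro s h
    have h1 : ∀ θ0 : Pol X m,
        C ≤ ∑ i, val vary sel (fun x => (f i x : ℕ)) (z i) t (dstep (f i) (z i) θ0 (s i)) := by
      intro θ0
      apply ih
      intro θ
      exact h (fun k => match k with | 0 => θ0 | k+1 => θ k)
    simp_rw [val_step_avg]
    calc C = ∑ V : X × Fin m → X, piW (polV vary) V *
          ∑ S : X × Fin m × X × Fin m → Bool, piW (polS sel) S * C := by
            simp_rw [← Finset.sum_mul, piW_sum, one_mul]
      _ ≤ ∑ V : X × Fin m → X, piW (polV vary) V *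
          ∑ S : X × Fin m × X × Fin m → Bool, piW (polS sel) S *
            ∑ i, val vary sel (fun x => (f i x : ℕ)) (z i) t (dstep (f i) (z i) (V, S) (s i)) := by
            gcongr with V _ S _
            exact h1 (V, S)
      _ = _ := by
            rw [Finset.sum_comm (s := (Finset.univ : Finset Ix))]
            apply Finset.sum_congr rfl
            intro V _
            rw [← Finset.mul_sum]
            congr 1
            rw [Finset.sum_comm (s := (Finset.univ : Finset Ix))]
            apply Finset.sum_congr rfl
            intro S _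
            rw [Finset.mul_sum]

theorem derand (init : PMF X) (vary : X → ℕ → PMF X) (sel : X → ℕ → X → ℕ → PMF Bool)
    (f : Ix → X → Fin m) (z : Ix → X) (C : ℝ≥0∞) (t : ℕ)
    (h : ∀ (x0 : X) (θ : ℕ → Pol X m), C ≤ ∑ i, (if (drun (f i) (z i) θ t
      (x0, decide (x0 = z i))).2 = false then (1:ℝ≥0∞) else 0)) :
    C ≤ ∑ i, ∑ w : X, ((stepP vary sel (fun x => (f i x : ℕ)) (z i))^[t]
      (init.bind (fun x => PMF.pure (x, decide (x = z i))))) (w, false) := by
  classical
  simp_rw [val_bind, sum_bind_mul, sum_pure_mul]
  rw [Finset.sum_comm]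
  simp_rw [← Finset.mul_sum]
  calc C = ∑ x, init x * C := by
            rw [← Finset.sum_mul]
            have := init.tsum_coe
            rw [tsum_fintype] at this
            rw [this, one_mul]
    _ ≤ _ := by
      gcongr with x _
      apply derand_aux
      intro θ
      exact h x θ

end Chain

end Pool.Agent.Lib.MP_c5d8fa_lc
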