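import Mathlib
import Pool.Agent.Lib.MP_c5d8fa_lc.Count

set_option autoImplicit false
set_option linter.unusedSectionVars false

namespace Pool.Agent.Lib.MP_c5d8fa_lc

open scoped BigOperators
open Classical

section G
variable {N r : ℕ}

abbrev Ins (N r : ℕ) := (Fin N → Fin 3) × Equiv.Perm (Fin N) × Str N r

noncomputable def fI (I : Ins N r) : Str N r → ℕ := FI I.1 I.2.1 I.2.2

variable {O : Type*} [Fintype O] (V : ℕ → O → Str N r) (U : ℕ → O → ℕ → O) (o0 : O)

/-- the `s`-th query on instance `I` -/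
noncomputable def qI (I : Ins N r) (s : ℕ) : Str N r := qf V U (fI I) 0 o0 s

/-- number of times `s < T` at which the best value seen so far is exactly `k` -/
noncomputable def TL (I : Ins N r) (k T : ℕ) : ℕ :=
  ((Finset.range T).filter (fun s => (∃ s' ≤ s, k ≤ fI I (qI V U o0 I s')) ∧
    (∀ s' ≤ s, fI I (qI V U o0 I s') ≤ k))).card

lemma TL_sum (I : Ins N r) (K : Finset ℕ) (T : ℕ) : ∑ k ∈ K, TL V U o0 I k T ≤ T := by
  unfold TL
  rw [← Finset.card_biUnion]
  · calc _ ≤ (Finset.range T).card := by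
          apply Finset.card_le_card
          intro s hs
          rw [Finset.mem_biUnion] at hs
          obtain ⟨k, _, hk⟩ := hs
          exact (Finset.mem_filter.mp hk).1
      _ = T := Finset.card_range T
  · intro k _ k' _ hkk'
    rw [Function.onFun, Finset.disjoint_left]
    intro s hs hs'
    rw [Finset.mem_filter] at hs hs'
    apply hkk'
    obtain ⟨_, ⟨a, ha, hka⟩, hle⟩ := hs
    obtain ⟨_, ⟨a', ha', hka'⟩, hle'⟩ := hs'
    have h1 := hle a' ha'
    have h2 := hle' a ha
    omega

/-- swap of the free elements `e`, `j` -/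
def mvA (e j : Fin N) (I : Ins N r) : Ins N r := (I.1, I.2.1 * Equiv.swap e j, I.2.2)

lemma mvA_inv (e j : Fin N) : Function.Involutive (mvA (r := r) e j) := by
  rintro ⟨u, τ, z⟩
  simp [mvA, mul_assoc]

/-- flip the target bit at the `e`-th free element -/
noncomputable def mvB (e : Fin N) (b : Bool) (I : Ins N r) : Ins N r :=
  (I.1, I.2.1, if b = true then
    Function.update I.2.2 (lev N r (Sum.inl (I.2.1 e, I.1 (I.2.1 e))))
      (!(I.2.2 (lev N r (Sum.inl (I.2.1 e, I.1 (I.2.1 e)))))) else I.2.2)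

lemma mvB_inv (e : Fin N) (b : Bool) : Function.Involutive (mvB (r := r) e b) := by
  rintro ⟨u, τ, z⟩
  cases b <;> simp [mvB]

noncomputable def mv (e j : Fin N) (b : Bool) (I : Ins N r) : Ins N r := mvB e b (mvA e j I)

lemma mv_bij (e j : Fin N) (b : Bool) : Function.Bijective (mv (r := r) e j b) :=
  (mvB_inv e b).bijective.comp (mvA_inv e j).bijective

lemma mv_eq (e j : Fin N) (b : Bool) (u : Fin N → Fin 3) (τ : Equiv.Perm (Fin N))
    (z : Str N r) :
    mv e j b (u, τ, z) = (u, τ * Equiv.swap e j, if b = true then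
      Function.update z (lev N r (Sum.inl (τ j, u (τ j))))
      (!(z (lev N r (Sum.inl (τ j, u (τ j)))))) else z) := by
  simp [mv, mvA, mvB]

/-- the instance after the move has the same first `k = 2N+e` levels -/
lemma trunc_eq (e j : Fin N) (hej : e ≤ j) (b : Bool) (u : Fin N → Fin 3)
    (τ : Equiv.Perm (Fin N)) (z : Str N r) (x : Str N r) :
    min (fI (mv e j b (u, τ, z)) x) (2*N+e) = GI (2*N+e) u τ z x := by
  rw [mv_eq]
  unfold fI GI FI
  have he := e.2
  apply minLO_eq _ _ _ (by omega)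
  intro k' hk'
  have key : ∀ l : Fin (3*N+r), (l : ℕ) < k' →
      (sig u (τ * Equiv.swap e j) l = sig u τ l ∧
        sig u τ l ≠ lev N r (Sum.inl (τ j, u (τ j)))) := by
    intro l hl
    rcases level_cases l with ⟨g, i, hi, rfl⟩ | ⟨g, rfl⟩ | h
    · rw [sig_ne_zero _ _ _ _ hi, sig_ne_zero _ _ _ _ hi]
      refine ⟨rfl, ?_⟩
      intro hcon
      have := (lev N r).injective hcon
      simp only [Sum.inl.injEq, Prod.mk.injEq] at this
      obtain ⟨h1, h2⟩ := this
      rw [h1] at h2
      apply hi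
      exact add_eq_right.mp h2
    · rw [lev_zero] at hl
      have hg : (g : ℕ) < e := by omega
      have hge : g ≠ e := fun h => by rw [h] at hg; exact lt_irrefl _ hg
      have hgj : g ≠ j := fun h => by
        rw [h] at hg
        have : (e : ℕ) ≤ j := hej
        omega
      rw [sig_zero, sig_zero]
      have hsw : (τ * Equiv.swap e j) g = τ g := by
        simp [Equiv.swap_apply_of_ne_of_ne hge hgj]
      rw [hsw]
      refine ⟨rfl, ?_⟩
      intro hcon
      have := (lev N r).injective hcon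
      simp only [Sum.inl.injEq, Prod.mk.injEq] at this
      exact hgj (τ.injective this.1)
    · omega
  apply forall_congr'
  intro l
  apply forall_congr'
  intro hl
  obtain ⟨h1, h2⟩ := key l hl
  rw [h1]
  cases b
  · simp
  · simp [Function.update_of_ne h2]

lemma level_e (e j : Fin N) (u : Fin N → Fin 3) (τ : Equiv.Perm (Fin N)) (z x : Str N r)
    (h : 2*N + (e : ℕ) < FI u (τ * Equiv.swap e j) z x) :
    x (lev N r (Sum.inl (τ j, u (τ j)))) = z (lev N r (Sum.inl (τ j, u (τ j)))) := by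
  unfold FI at h
  have he := e.2
  have h' := (LO_ge (fun j_1 => x ((sig u (τ * Equiv.swap e j)) j_1) =
    z ((sig u (τ * Equiv.swap e j)) j_1)) (2*N+e+1) (by omega)).1 h
  have := h' (lev N r (Sum.inl (e, 0))) (by rw [lev_zero]; omega)
  rw [sig_zero] at this
  simpa using this

/-- event: at least `m` of the first `T` times have best value exactly `k` -/
def Gap (m T k : ℕ) (I : Ins N r) : Prop := m ≤ TL V U o0 I k T

lemma gap_of (H m : ℕ) (e j : Fin N) (hej : e ≤ j) (b : Bool) (u : Fin N → Fin 3)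
    (τ : Equiv.Perm (Fin N)) (z : Str N r) (t : ℕ) (ht : t < H)
    (hkt : 2*N+e ≤ GI (2*N+e) u τ z (qf V U (GI (2*N+e) u τ z) 0 o0 t))
    (hfirst : ∀ s < t, GI (2*N+e) u τ z (qf V U (GI (2*N+e) u τ z) 0 o0 s) < 2*N+e)
    (hFS : τ j ∉ FS V U m (2*N+e) (GI (2*N+e) u τ z) t
      (obf V U (GI (2*N+e) u τ z) 0 o0 t))
    (hz : (mv e j b (u, τ, z)).2.2 (lev N r (Sum.inl (τ j, u (τ j))))
      ≠ qf V U (GI (2*N+e) u τ z) 0 o0 t (lev N r (Sum.inl (τ j, u (τ j))))) :
    Gap V U o0 m (H+m) (2*N+e) (mv e j b (u, τ, z)) := by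
  set g := GI (2*N+e) u τ z with hg
  set I' := mv e j b (u, τ, z) with hI'
  set p := lev N r (Sum.inl (τ j, u (τ j))) with hp
  have htr : ∀ x, min (fI I' x) (2*N+e) = g x := fun x => trunc_eq e j hej b u τ z x
  have hI'eq : fI I' = FI u (τ * Equiv.swap e j) I'.2.2 := by
    rw [hI', mv_eq]; rfl
  -- queries that keep the reference bit at `p` have value at most `k`
  have hle : ∀ x : Str N r, (2*N+e ≤ g x → x p = qf V U g 0 o0 t p) → fI I' x = g x := by
    intro x hx
    by_cases hgx : 2*N+e ≤ g x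
    · have hxp := hx hgx
      have h1 : ¬ (2*N+(e:ℕ) < fI I' x) := by
        intro hlt
        rw [hI'eq] at hlt
        have := level_e e j u τ _ x hlt
        rw [← hp, hxp] at this
        exact hz this.symm
      have h2 := htr x
      omega
    · have h2 := htr x
      omega
  have hval : ∀ s ≤ t + m, fI I' (qf V U g 0 o0 s) = g (qf V U g 0 o0 s) := by
    intro s hs
    apply hle
    intro hgs
    rcases lt_trichotomy s t with h | h | h
    · have := hfirst s h
      omega
    · rw [h]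
    · obtain ⟨d, rfl⟩ := Nat.exists_eq_add_of_lt h
      have e1 : t + d + 1 = t + (d+1) := by ring
      rw [e1] at hgs hs ⊢
      rw [qf_add] at hgs ⊢
      by_contra hne
      apply hFS
      simp only [FS, Finset.mem_filter, Finset.mem_univ, true_and]
      refine ⟨u (τ j), d+1, by omega, by omega, hgs, ?_⟩
      have e2 : qf V U g 0 o0 t = qf V U g t (obf V U g 0 o0 t) 0 := by
        have := qf_add V U g o0 t 0
        simpa using this
      rw [← e2]
      exact hne
  have hrun : ∀ s ≤ t + m, qI V U o0 I' s = qf V U g 0 o0 s := by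
    intro s hs
    unfold qI
    apply qf_agree V U g (fI I') 0 o0 (t+m) (fun s hs => hval s (le_of_lt hs)) s hs
  unfold Gap TL
  have hsub : Finset.Ico t (t+m) ⊆ (Finset.range (H+m)).filter
      (fun s => (∃ s' ≤ s, 2*N+e ≤ fI I' (qI V U o0 I' s')) ∧
        (∀ s' ≤ s, fI I' (qI V U o0 I' s') ≤ 2*N+e)) := by
    intro s hs
    rw [Finset.mem_Ico] at hs
    rw [Finset.mem_filter, Finset.mem_range]
    refine ⟨by omega, ⟨t, hs.1, ?_⟩, ?_⟩
    · rw [hrun t (by omega), hval t (by omega)]
      exact hkt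
    · intro s' hs'
      rw [hrun s' (by omega), hval s' (by omega)]
      exact min_le_right _ _
  have := Finset.card_le_card hsub
  rw [Nat.card_Ico] at this
  omega

/-- good instances for level index `e` -/
def Good (H m φ : ℕ) (e : Fin N) (I : Ins N r) : Prop :=
  ∃ t < H, 2*N+e ≤ GI (2*N+e) I.1 I.2.1 I.2.2 (qf V U (GI (2*N+e) I.1 I.2.1 I.2.2) 0 o0 t) ∧
    (∀ s < t, GI (2*N+e) I.1 I.2.1 I.2.2
      (qf V U (GI (2*N+e) I.1 I.2.1 I.2.2) 0 o0 s) < 2*N+e) ∧
    (FS V U m (2*N+e) (GI (2*N+e) I.1 I.2.1 I.2.2) t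
      (obf V U (GI (2*N+e) I.1 I.2.1 I.2.2) 0 o0 t)).card < φ

lemma good_count (H m φ : ℕ) (e : Fin N) (I : Ins N r) (hI : Good V U o0 H m φ e I) :
    N - e - φ ≤ ∑ j ∈ Finset.Ici e, ∑ b : Bool,
      if Gap V U o0 m (H+m) (2*N+e) (mv e j b I) then 1 else 0 := by
  obtain ⟨u, τ, z⟩ := I
  obtain ⟨t, ht, hkt, hfirst, hφ⟩ := hI
  simp only at hkt hfirst hφ
  set g := GI (2*N+e) u τ z with hg
  set A := FS V U m (2*N+e) g t (obf V U g 0 o0 t) with hA
  have h1 : ∀ j ∈ (Finset.Ici e).filter (fun j => τ j ∉ A),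
      1 ≤ ∑ b : Bool, if Gap V U o0 m (H+m) (2*N+e) (mv e j b (u, τ, z)) then 1 else 0 := by
    intro j hj
    rw [Finset.mem_filter, Finset.mem_Ici] at hj
    -- choose the bit
    set p := lev N r (Sum.inl (τ j, u (τ j))) with hp
    by_cases hb : z p = qf V U g 0 o0 t p
    · have : Gap V U o0 m (H+m) (2*N+e) (mv e j true (u, τ, z)) := by
        apply gap_of V U o0 H m e j hj.1 true u τ z t ht hkt hfirst hj.2
        rw [mv_eq]
        simp only [if_true]
        rw [← hp, Function.update_self, ← hg, ← hb]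
        cases z p <;> simp
      calc 1 = if Gap V U o0 m (H+m) (2*N+e) (mv e j true (u, τ, z)) then 1 else 0 := by
            rw [if_pos this]
        _ ≤ _ := Finset.single_le_sum
          (f := fun b => if Gap V U o0 m (H+m) (2*N+e) (mv e j b (u, τ, z)) then 1 else 0)
          (fun _ _ => Nat.zero_le _) (Finset.mem_univ true)
    · have : Gap V U o0 m (H+m) (2*N+e) (mv e j false (u, τ, z)) := by
        apply gap_of V U o0 H m e j hj.1 false u τ z t ht hkt hfirst hj.2
        rw [mv_eq]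
        simp only [Bool.false_eq_true, if_false]
        exact hb
      calc 1 = if Gap V U o0 m (H+m) (2*N+e) (mv e j false (u, τ, z)) then 1 else 0 := by
            rw [if_pos this]
        _ ≤ _ := Finset.single_le_sum
          (f := fun b => if Gap V U o0 m (H+m) (2*N+e) (mv e j b (u, τ, z)) then 1 else 0)
          (fun _ _ => Nat.zero_le _) (Finset.mem_univ false)
  have h2 : N - e - φ ≤ ((Finset.Ici e).filter (fun j => τ j ∉ A)).card := by
    have h3 : ((Finset.Ici e).filter (fun j => ¬ τ j ∉ A)).card ≤ A.card := by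
      apply Finset.card_le_card_of_injOn (fun j => τ j)
      · intro j hj
        simp only [Finset.coe_filter, Set.mem_setOf_eq, not_not] at hj
        exact hj.2
      · intro a _ b _ hab
        exact τ.injective hab
    have h4 := Finset.card_filter_add_card_filter_not (s := Finset.Ici e) (fun j => τ j ∉ A)
    have h5 : (Finset.Ici e).card = N - e := by simp
    omega
  calc N - e - φ ≤ ((Finset.Ici e).filter (fun j => τ j ∉ A)).card := h2
    _ = ∑ j ∈ (Finset.Ici e).filter (fun j => τ j ∉ A), 1 := by simp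
    _ ≤ ∑ j ∈ (Finset.Ici e).filter (fun j => τ j ∉ A), ∑ b : Bool,
        (if Gap V U o0 m (H+m) (2*N+e) (mv e j b (u, τ, z)) then 1 else 0) :=
        Finset.sum_le_sum h1
    _ ≤ _ := Finset.sum_le_sum_of_subset (Finset.filter_subset _ _)

lemma good_gap (H m φ : ℕ) (e : Fin N) :
    (Finset.univ.filter (fun I : Ins N r => Good V U o0 H m φ e I)).card * (N - e - φ)
    ≤ 2 * (N - e) *
      (Finset.univ.filter (fun I : Ins N r => Gap V U o0 m (H+m) (2*N+e) I)).card := by
  calc (Finset.univ.filter (fun I : Ins N r => Good V U o0 H m φ e I)).card * (N - e - φ)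
      = ∑ I ∈ (Finset.univ.filter (fun I : Ins N r => Good V U o0 H m φ e I)), (N - e - φ) := by
        rw [Finset.sum_const, smul_eq_mul]
    _ ≤ ∑ I ∈ (Finset.univ.filter (fun I : Ins N r => Good V U o0 H m φ e I)),
        ∑ j ∈ Finset.Ici e, ∑ b : Bool,
          (if Gap V U o0 m (H+m) (2*N+e) (mv e j b I) then 1 else 0) := by
        apply Finset.sum_le_sum
        intro I hI
        exact good_count V U o0 H m φ e I (Finset.mem_filter.mp hI).2
    _ ≤ ∑ I : Ins N r, ∑ j ∈ Finset.Ici e, ∑ b : Bool,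
          (if Gap V U o0 m (H+m) (2*N+e) (mv e j b I) then 1 else 0) :=
        Finset.sum_le_sum_of_subset (Finset.filter_subset _ _)
    _ = ∑ j ∈ Finset.Ici e, ∑ b : Bool, ∑ I : Ins N r,
          (if Gap V U o0 m (H+m) (2*N+e) (mv e j b I) then 1 else 0) := by
        rw [Finset.sum_comm]
        apply Finset.sum_congr rfl
        intro j _
        rw [Finset.sum_comm]
    _ = ∑ j ∈ Finset.Ici e, ∑ b : Bool, 
      (Finset.univ.filter (fun I : Ins N r => Gap V U o0 m (H+m) (2*N+e) I)).card := by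
        apply Finset.sum_congr rfl
        intro j _
        apply Finset.sum_congr rfl
        intro b _
        rw [Finset.card_filter]
        exact (mv_bij e j b).sum_comp
          (fun I : Ins N r => if Gap V U o0 m (H+m) (2*N+e) I then 1 else 0)
    _ = _ := by
        rw [Finset.sum_const, Finset.sum_const]
        simp only [Fin.card_Ici, Finset.card_univ, Fintype.card_bool, smul_eq_mul]
        ring

/-- if the instance is solved before `H`, it is good or bad -/
lemma solved_cases (H m φ : ℕ) (e : Fin N) (I : Ins N r)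
    (hs : ∃ t < H, qI V U o0 I t = I.2.2) :
    Good V U o0 H m φ e I ∨ Bad V U o0 H m (2*N+e) φ I.1 I.2.1 I.2.2 := by
  obtain ⟨u, τ, z⟩ := I
  simp only at hs
  have he := e.2
  have hreach : ∃ t, t < H ∧ 2*N+e ≤ fI (u, τ, z) (qI V U o0 (u, τ, z) t) := by
    obtain ⟨t, ht, hq⟩ := hs
    refine ⟨t, ht, ?_⟩
    rw [hq]
    unfold fI FI
    rw [LO_ge _ _ (by omega)]
    intro j _
    rfl
  have hex : ∃ t, 2*N+e ≤ fI (u, τ, z) (qI V U o0 (u, τ, z) t) := by
    obtain ⟨t, _, h⟩ := hreach; exact ⟨t, h⟩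
  set t := Nat.find hex with ht
  have ht1 := Nat.find_spec hex
  have ht2 : ∀ s < t, fI (u, τ, z) (qI V U o0 (u, τ, z) s) < 2*N+e := by
    intro s hs
    exact not_le.mp (Nat.find_min hex hs)
  have htH : t < H := by
    obtain ⟨t', ht', h'⟩ := hreach
    exact lt_of_le_of_lt (Nat.find_min' hex h') ht'
  rw [← ht] at ht1
  set g := GI (2*N+e) u τ z with hg
  have hrun : ∀ s ≤ t, qf V U g 0 o0 s = qI V U o0 (u, τ, z) s := by
    apply qf_agree V U (fI (u, τ, z)) g 0 o0 t
    intro s hs
    have h2 := ht2 s hs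
    have h3 : g (qf V U (fI (u, τ, z)) 0 o0 s)
        = min (fI (u, τ, z) (qI V U o0 (u, τ, z) s)) (2*N+e) := rfl
    rw [h3]
    have h4 : fI (u, τ, z) (qf V U (fI (u, τ, z)) 0 o0 s)
      = fI (u, τ, z) (qI V U o0 (u, τ, z) s) := rfl
    rw [h4]
    omega
  have hgt : 2*N+e ≤ g (qf V U g 0 o0 t) := by
    rw [hrun t le_rfl]
    have h3 : g (qI V U o0 (u, τ, z) t)
        = min (fI (u, τ, z) (qI V U o0 (u, τ, z) t)) (2*N+e) := rfl
    rw [h3]
    omega
  have hgs : ∀ s < t, g (qf V U g 0 o0 s) < 2*N+e := by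
    intro s hs
    rw [hrun s (le_of_lt hs)]
    have h3 : g (qI V U o0 (u, τ, z) s)
        = min (fI (u, τ, z) (qI V U o0 (u, τ, z) s)) (2*N+e) := rfl
    rw [h3]
    have := ht2 s hs
    omega
  by_cases hc : (FS V U m (2*N+e) g t (obf V U g 0 o0 t)).card < φ
  · left
    exact ⟨t, htH, hgt, hgs, hc⟩
  · right
    exact ⟨t, htH, hgt, not_lt.mp hc⟩

end G

end Pool.Agent.Lib.MP_c5d8fa_lc
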