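import Mathlib
import Pool.Agent.Lib.MP_c5d8fa_lc.Gap
import Pool.Agent.Lib.MP_c5d8fa_lc.Derand

set_option autoImplicit false
set_option linter.unusedSectionVars false

namespace Pool.Agent.Lib.MP_c5d8fa_lc

open scoped BigOperators ENNReal
open Classical

section M
variable {N r : ℕ} {O : Type*} [Fintype O] (V : ℕ → O → Str N r) (U : ℕ → O → ℕ → O) (o0 : O)

lemma card_ins : (Fintype.card (Ins N r) : ℝ) = (Nat.factorial N : ℝ) * (3^N * 2^(3*N+r)) := by
  rw [Fintype.card_prod, Fintype.card_prod]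
  simp only [Fintype.card_fun, Fintype.card_fin, Fintype.card_perm, Fintype.card_bool]
  push_cast
  ring

lemma card_bad_ins (H m k φ : ℕ) (hk : 2*N ≤ k) (hk3 : k ≤ 3*N) :
    ((Finset.univ.filter (fun I : Ins N r => Bad V U o0 H m k φ I.1 I.2.1 I.2.2)).card : ℝ)
    ≤ (Nat.factorial N : ℝ) *
      (H * (Fintype.card O) * (32^m * (35/32)^N) * (3^(N-φ) * 2^(N+r))) := by
  have h1 : (Finset.univ.filter (fun I : Ins N r => Bad V U o0 H m k φ I.1 I.2.1 I.2.2)).card
      = ∑ τ : Equiv.Perm (Fin N), (Finset.univ.filter (fun uz : (Fin N → Fin 3) × Str N r =>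
      Bad V U o0 H m k φ uz.1 τ uz.2)).card := by
    rw [Finset.card_filter, ← Finset.univ_product_univ, Finset.sum_product]
    simp_rw [Finset.card_filter, ← Finset.univ_product_univ, Finset.sum_product]
    rw [Finset.sum_comm]
  rw [h1]
  push_cast
  calc _ ≤ ∑ τ : Equiv.Perm (Fin N), ((H:ℝ) * (Fintype.card O) * (32^m * (35/32)^N) *
      (3^(N-φ) * 2^(N+r))) := by
        apply Finset.sum_le_sum
        intro τ _
        exact card_bad V U o0 H m k φ hk hk3 τ
    _ = _ := by
        rw [Finset.sum_const, nsmul_eq_mul, Finset.card_univ, Fintype.card_perm, Fintype.card_fin]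

end M

theorem det_main (P r : ℕ) {O : Type*} [Fintype O] (V : ℕ → O → Str (20*P) r)
    (U : ℕ → O → ℕ → O) (o0 : O) (hP : 0 < P) (H : ℕ) (hH : 80 * (H + P) < P^2)
    (hnum : (H:ℝ) * (Fintype.card O) * (32^P * (35/32)^(20*P)) * (3^(20*P-18*P) * 2^(20*P+r))
      ≤ (1/4) * (3^(20*P) * 2^(3*(20*P)+r))) :
    (Fintype.card (Ins (20*P) r) : ℝ) / 4 ≤
      ((Finset.univ.filter (fun I : Ins (20*P) r =>
        ∀ t < H, qI V U o0 I t ≠ I.2.2)).card : ℝ) := by
  by_contra hcon
  rw [not_le] at hcon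
  set S : ℝ := (Fintype.card (Ins (20*P) r) : ℝ) with hS
  have hSpos : 0 < S := by
    rw [hS, card_ins]; positivity
  -- number of gap instances per level
  have hgap : ∀ e : Fin (20*P), (e : ℕ) < P → S / 80 ≤
      ((Finset.univ.filter (fun I : Ins (20*P) r =>
        Gap V U o0 P (H+P) (2*(20*P)+e) I)).card : ℝ) := by
    intro e he
    have hbad := card_bad_ins V U o0 H P (2*(20*P)+e) (18*P) (r := r) (by omega)
      (by have := e.2; omega)
    have hbad' : ((Finset.univ.filter (fun I : Ins (20*P) r =>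
        Bad V U o0 H P (2*(20*P)+e) (18*P) I.1 I.2.1 I.2.2)).card : ℝ) ≤ S / 4 := by
      refine hbad.trans ?_
      calc _ ≤ (Nat.factorial (20*P) : ℝ) * ((1/4) * (3^(20*P) * 2^(3*(20*P)+r))) := by
            gcongr
        _ = S / 4 := by rw [hS, card_ins]; ring
    have hcover : (Finset.univ : Finset (Ins (20*P) r)) ⊆
        ((Finset.univ.filter (fun I : Ins (20*P) r => ∀ t < H, qI V U o0 I t ≠ I.2.2)) ∪
        (Finset.univ.filter (fun I : Ins (20*P) r =>
          Bad V U o0 H P (2*(20*P)+e) (18*P) I.1 I.2.1 I.2.2))) ∪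
        (Finset.univ.filter (fun I : Ins (20*P) r => Good V U o0 H P (18*P) e I)) := by
      intro I _
      simp only [Finset.mem_union, Finset.mem_filter, Finset.mem_univ, true_and]
      by_cases hs : ∃ t < H, qI V U o0 I t = I.2.2
      · rcases solved_cases V U o0 H P (18*P) e I hs with h | h
        · right; exact h
        · left; right; exact h
      · left; left
        push Not at hs
        exact hs
    have hcard := Finset.card_le_card hcover
    have hcard2 := hcard.trans ((Finset.card_union_le _ _).trans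
      (Nat.add_le_add_right (Finset.card_union_le _ _) _))
    rw [Finset.card_univ] at hcard2
    have hcard3 : S ≤ (((Finset.univ.filter (fun I : Ins (20*P) r =>
        ∀ t < H, qI V U o0 I t ≠ I.2.2)).card : ℝ) +
        ((Finset.univ.filter (fun I : Ins (20*P) r =>
          Bad V U o0 H P (2*(20*P)+e) (18*P) I.1 I.2.1 I.2.2)).card : ℝ)) +
        ((Finset.univ.filter (fun I : Ins (20*P) r => Good V U o0 H P (18*P) e I)).card : ℝ) := by
      rw [hS]
      exact_mod_cast hcard2
    have hgood : S / 2 ≤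
        ((Finset.univ.filter (fun I : Ins (20*P) r => Good V U o0 H P (18*P) e I)).card : ℝ) := by
      linarith
    have hgg := good_gap V U o0 H P (18*P) e (r := r)
    have hsub : P ≤ 20*P - e - 18*P := by omega
    have hgg2 : (Finset.univ.filter (fun I : Ins (20*P) r => Good V U o0 H P (18*P) e I)).card * P
        ≤ 2 * (20*P) * (Finset.univ.filter (fun I : Ins (20*P) r =>
          Gap V U o0 P (H+P) (2*(20*P)+e) I)).card := by
      calc _ ≤ (Finset.univ.filter (fun I : Ins (20*P) r =>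
            Good V U o0 H P (18*P) e I)).card * (20*P - e - 18*P) := by gcongr
        _ ≤ _ := hgg
        _ ≤ _ := by
          gcongr
          omega
    have hgg3 : ((Finset.univ.filter (fun I : Ins (20*P) r =>
        Good V U o0 H P (18*P) e I)).card : ℝ) * P
        ≤ 2 * (20*P) * ((Finset.univ.filter (fun I : Ins (20*P) r =>
          Gap V U o0 P (H+P) (2*(20*P)+e) I)).card : ℝ) := by
      exact_mod_cast hgg2
    have hPr : (0:ℝ) < P := by exact_mod_cast hP
    have h5 : S / 2 * P ≤ 2 * (20*P) * ((Finset.univ.filter (fun I : Ins (20*P) r =>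
          Gap V U o0 P (H+P) (2*(20*P)+e) I)).card : ℝ) :=
      le_trans (by gcongr) hgg3
    have h6 : S / 2 * P = (S/80) * (40 * P) := by ring
    have h7 : 2 * (20*(P:ℝ)) * ((Finset.univ.filter (fun I : Ins (20*P) r =>
          Gap V U o0 P (H+P) (2*(20*P)+e) I)).card : ℝ) =
          ((Finset.univ.filter (fun I : Ins (20*P) r =>
          Gap V U o0 P (H+P) (2*(20*P)+e) I)).card : ℝ) * (40 * P) := by ring
    rw [h6, h7] at h5
    exact le_of_mul_le_mul_right h5 (by positivity)
  -- double counting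
  have hdc : ∑ e ∈ Finset.range P, (Finset.univ.filter (fun I : Ins (20*P) r =>
        Gap V U o0 P (H+P) (2*(20*P)+e) I)).card * P ≤ Fintype.card (Ins (20*P) r) * (H+P) := by
    calc _ = ∑ e ∈ Finset.range P, ∑ I : Ins (20*P) r,
          (if Gap V U o0 P (H+P) (2*(20*P)+e) I then P else 0) := by
          apply Finset.sum_congr rfl
          intro e _
          rw [← Finset.sum_filter, Finset.sum_const, smul_eq_mul]
      _ = ∑ I : Ins (20*P) r, ∑ e ∈ Finset.range P,
          (if Gap V U o0 P (H+P) (2*(20*P)+e) I then P else 0) := Finset.sum_comm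
      _ ≤ ∑ I : Ins (20*P) r, (H+P) := by
          apply Finset.sum_le_sum
          intro I _
          calc _ ≤ ∑ e ∈ Finset.range P, TL V U o0 I (2*(20*P)+e) (H+P) := by
                apply Finset.sum_le_sum
                intro e _
                split_ifs with h
                · exact h
                · exact Nat.zero_le _
            _ = ∑ k ∈ (Finset.range P).image (fun e => 2*(20*P)+e), TL V U o0 I k (H+P) := by
                rw [Finset.sum_image]
                intro a _ b _ hab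
                simpa using hab
            _ ≤ _ := TL_sum V U o0 I _ _
      _ = _ := by rw [Finset.sum_const, Finset.card_univ, smul_eq_mul]
  have hdc2 : ∑ e ∈ Finset.range P, ((Finset.univ.filter (fun I : Ins (20*P) r =>
        Gap V U o0 P (H+P) (2*(20*P)+e) I)).card : ℝ) * P ≤ S * (H+P) := by
    rw [hS]
    exact_mod_cast hdc
  have hlow : ∑ e ∈ Finset.range P, (S/80) * (P:ℝ) ≤
      ∑ e ∈ Finset.range P, ((Finset.univ.filter (fun I : Ins (20*P) r =>
        Gap V U o0 P (H+P) (2*(20*P)+e) I)).card : ℝ) * P := by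
    apply Finset.sum_le_sum
    intro e he
    rw [Finset.mem_range] at he
    gcongr
    exact hgap ⟨e, by omega⟩ he
  rw [Finset.sum_const, Finset.card_range, nsmul_eq_mul] at hlow
  have hfin : (P:ℝ) * (S/80 * P) ≤ S * (H+P) := hlow.trans hdc2
  have hH' : (80:ℝ) * (H + P) < P^2 := by exact_mod_cast hH
  have : (P:ℝ) * (S/80 * P) = S * (P^2/80) := by ring
  rw [this] at hfin
  have h8 : (P:ℝ)^2/80 ≤ H + P := le_of_mul_le_mul_left hfin hSpos
  linarith

/-! ### transfer from frozen deterministic runs -/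

section T
variable {N r : ℕ}

def clip (n a : ℕ) : Fin (n+1) := ⟨min a n, by omega⟩

/-- memory-limited algorithm simulating a sequence of policies -/
def VV (x0 : Str N r) (θ : ℕ → Pol (Str N r) (3*N+r+1)) :
    ℕ → Option (Str N r × Fin (3*N+r+1)) → Str N r
  | 0, _ => x0
  | _+1, none => x0
  | t+1, some a => (θ t).1 a

def UU (x0 : Str N r) (θ : ℕ → Pol (Str N r) (3*N+r+1)) :
    ℕ → Option (Str N r × Fin (3*N+r+1)) → ℕ → Option (Str N r × Fin (3*N+r+1))
  | 0, _, a => some (x0, clip _ a)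
  | _+1, none, _ => none
  | t+1, some b, a => if (θ t).2 (b.1, b.2, (θ t).1 b, clip _ a) = true
      then some ((θ t).1 b, clip _ a) else some b

noncomputable def fFin (I : Ins N r) (x : Str N r) : Fin (3*N+r+1) :=
  ⟨fI I x, Nat.lt_succ_of_le (LO_le _)⟩

lemma clip_fI (I : Ins N r) (x : Str N r) : clip (3*N+r) (fI I x) = fFin I x := by
  apply Fin.ext
  simp only [clip, fFin]
  exact min_eq_left (LO_le _)

lemma drun_succ {X : Type*} [DecidableEq X] {m : ℕ} (f : X → Fin m) (z : X) (t : ℕ) :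
    ∀ (θ : ℕ → Pol X m) (s : X × Bool),
    drun f z θ (t+1) s = dstep f z (θ t) (drun f z θ t s) := by
  induction t with
  | zero => intro θ s; rfl
  | succ t ih =>
    intro θ s
    rw [drun, ih]
    rfl

lemma run_rel (x0 : Str N r) (θ : ℕ → Pol (Str N r) (3*N+r+1)) (I : Ins N r) (t : ℕ)
    (h : ∀ s ≤ t, qI (VV x0 θ) (UU x0 θ) none I s ≠ I.2.2) :
    ∃ x : Str N r, drun (fFin I) I.2.2 θ t (x0, decide (x0 = I.2.2)) = (x, false) ∧
      obf (VV x0 θ) (UU x0 θ) (fI I) 0 none (t+1) = some (x, fFin I x) := by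
  induction t with
  | zero =>
    refine ⟨x0, ?_, ?_⟩
    · have h0 := h 0 le_rfl
      simp only [qI, qf, VV] at h0
      simp only [drun, Prod.mk.injEq, true_and, decide_eq_false_iff_not]
      exact h0
    · simp only [obf, UU, VV, clip_fI]
  | succ t ih =>
    obtain ⟨x, hx1, hx2⟩ := ih (fun s hs => h s (by omega))
    have hq0 := h (t+1) le_rfl
    unfold qI qf at hq0
    rw [hx2, Nat.zero_add] at hq0
    have hq : (θ t).1 (x, fFin I x) ≠ I.2.2 := hq0
    rw [drun_succ, hx1]
    have hob : obf (VV x0 θ) (UU x0 θ) (fI I) 0 none (t+1+1)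
        = UU x0 θ (t+1) (some (x, fFin I x)) (fI I (VV x0 θ (t+1) (some (x, fFin I x)))) := by
      conv_lhs => rw [obf]
      rw [hx2, Nat.zero_add]
    rw [hob]
    simp only [UU, VV, clip_fI]
    unfold dstep
    simp only [Bool.false_eq_true, if_false]
    by_cases hsel : (θ t).2 (x, fFin I x, (θ t).1 (x, fFin I x),
        fFin I ((θ t).1 (x, fFin I x))) = true
    · refine ⟨(θ t).1 (x, fFin I x), ?_, ?_⟩
      · simp [hsel, hq]
      · simp [hsel]
    · refine ⟨x, ?_, ?_⟩
      · simp [hsel, hq]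
      · simp [hsel]

lemma card_O : (Fintype.card (Option (Str N r × Fin (3*N+r+1))) : ℝ)
    ≤ 2^(3*N+r) * (3*N+r+2) := by
  rw [Fintype.card_option, Fintype.card_prod]
  simp only [Fintype.card_fun, Fintype.card_fin, Fintype.card_bool]
  push_cast
  have : (1:ℝ) ≤ 2^(3*N+r) := one_le_pow₀ (by norm_num)
  nlinarith

end T

/-! ### numerics -/

lemma numeric : ∃ P0 : ℕ, ∀ P : ℕ, P0 ≤ P → ∀ r < 60,
    ((P^2/100 : ℕ) : ℝ) * (2^(3*(20*P)+r) * (3*(20*P:ℕ)+r+2)) * (32^P * (35/32)^(20*P)) *
      (3^(20*P-18*P) * 2^(20*P+r)) ≤ (1/4) * (3^(20*P) * 2^(3*(20*P)+r)) := by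
  have hρ : |(288 * (35/48)^20 : ℝ)| < 1 := by
    rw [abs_of_pos (by positivity)]
    norm_num
  have ht := tendsto_pow_const_mul_const_pow_of_abs_lt_one 3 hρ
  have ht2 := ht.const_mul (122 * 2^60 : ℝ)
  rw [mul_zero] at ht2
  have hev := ht2.eventually (gt_mem_nhds (show (0:ℝ) < 1/4 by norm_num))
  rw [Filter.eventually_atTop] at hev
  obtain ⟨P0, hP0⟩ := hev
  refine ⟨max P0 1, ?_⟩
  intro P hP r hr
  have h1 := hP0 P (le_trans (le_max_left _ _) hP)
  have hP1 : 1 ≤ P := le_trans (le_max_right _ _) hP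
  have hPr : (1:ℝ) ≤ P := by exact_mod_cast hP1
  have hH : ((P^2/100 : ℕ) : ℝ) ≤ P^2 := by
    have : P^2/100 ≤ P^2 := Nat.div_le_self _ _
    exact_mod_cast this
  have hr' : (r:ℝ) ≤ 60 := by exact_mod_cast le_of_lt hr
  have h3 : (3:ℝ)^(20*P-18*P) = 9^P := by
    have : 20*P - 18*P = 2*P := by omega
    rw [this, pow_mul]; norm_num
  have h4 : (2:ℝ)^(20*P+r) ≤ (2^20)^P * 2^60 := by
    rw [pow_add, pow_mul]
    gcongr
    · norm_num
  have h5 : (3*(20*P:ℕ)+r+2 : ℝ) ≤ 122 * P := by
    push_cast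
    nlinarith
  have h6 : (32:ℝ)^P * (35/32)^(20*P) * (9^P * (2^20)^P) = (288 * (35/48)^20)^P * 3^(20*P) := by
    rw [pow_mul, pow_mul, ← mul_pow, ← mul_pow, ← mul_pow, ← mul_pow]
    congr 1
    norm_num
  calc _ ≤ (P:ℝ)^2 * (2^(3*(20*P)+r) * (122 * P)) * (32^P * (35/32)^(20*P)) *
        (9^P * ((2^20)^P * 2^60)) := by
        rw [h3]
        gcongr
    _ = (122 * 2^60) * (P^3 * ((32:ℝ)^P * (35/32)^(20*P) * (9^P * (2^20)^P)))
        * 2^(3*(20*P)+r) := by ring
    _ = (122 * 2^60 * ((P:ℝ)^3 * (288 * (35/48)^20)^P)) * (3^(20*P) * 2^(3*(20*P)+r)) := by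
        rw [h6]; ring
    _ ≤ _ := by
        gcongr

/-! ### final assembly -/

theorem final : ∃ c : ℝ, 0 < c ∧ ∃ N : ℕ, ∀ n : ℕ, N ≤ n →
    ∀ (init : PMF (Fin n → Bool)) (vary : (Fin n → Bool) → ℕ → PMF (Fin n → Bool))
      (sel : (Fin n → Bool) → ℕ → (Fin n → Bool) → ℕ → PMF Bool),
    ∃ (z : Fin n → Bool) (σ : Equiv.Perm (Fin n)),
      ENNReal.ofReal (c * (n : ℝ) ^ 2) ≤
        1 + ∑' t : ℕ, ∑ w : Fin n → Bool,
          ((stepP vary sel (fun x => LO (fun j => x (σ j) = z (σ j))) z)^[t]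
            (init.bind (fun x => PMF.pure (x, decide (x = z))))) (w, false) := by
  obtain ⟨P0, hP0⟩ := numeric
  refine ⟨1/10^8, by positivity, 60 * (P0 + 1000), ?_⟩
  intro n hn init vary sel
  obtain ⟨P, r, hr, hnP⟩ : ∃ P r, r < 60 ∧ n = 3*(20*P) + r :=
    ⟨n/60, n % 60, Nat.mod_lt _ (by norm_num), by omega⟩
  subst hnP
  have hP : P0 + 999 ≤ P := by omega
  set H := P^2/100 with hH
  have hHub : 100 * H ≤ P^2 := Nat.mul_div_le _ _
  have hHlb : P^2 < 100 * (H + 1) := Nat.lt_mul_div_succ _ (by norm_num)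
  have hH80 : 80 * (H + P) < P^2 := by nlinarith
  have hPpos : 0 < P := by omega
  -- deterministic bound
  have hdet : ∀ (x0 : Str (20*P) r) (θ : ℕ → Pol (Str (20*P) r) (3*(20*P)+r+1)) (t : ℕ), t < H →
      (ENNReal.ofReal ((Fintype.card (Ins (20*P) r) : ℝ) / 4)) ≤
      ∑ I : Ins (20*P) r, (if (drun (fFin I) I.2.2 θ t (x0, decide (x0 = I.2.2))).2 = false
        then (1:ℝ≥0∞) else 0) := by
    intro x0 θ t ht
    have h1 := det_main P r (VV x0 θ) (UU x0 θ) none hPpos H hH80 (by
      refine le_trans ?_ (hP0 P (by omega) r hr)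
      gcongr
      exact_mod_cast card_O (N := 20*P) (r := r))
    have h2 : (Finset.univ.filter (fun I : Ins (20*P) r =>
        ∀ t < H, qI (VV x0 θ) (UU x0 θ) none I t ≠ I.2.2)).card ≤
        (Finset.univ.filter (fun I : Ins (20*P) r =>
          (drun (fFin I) I.2.2 θ t (x0, decide (x0 = I.2.2))).2 = false)).card := by
      apply Finset.card_le_card
      intro I hI
      rw [Finset.mem_filter] at hI ⊢
      refine ⟨Finset.mem_univ _, ?_⟩
      obtain ⟨x, hx, _⟩ := run_rel x0 θ I t (fun s hs => hI.2 s (lt_of_le_of_lt hs ht))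
      rw [hx]
    rw [Finset.sum_boole]
    rw [ENNReal.ofReal_le_iff_le_toReal (ENNReal.natCast_ne_top _)]
    rw [ENNReal.toReal_natCast]
    refine h1.trans ?_
    exact_mod_cast h2
  have hder : ∀ t < H, (ENNReal.ofReal ((Fintype.card (Ins (20*P) r) : ℝ) / 4)) ≤
      ∑ I : Ins (20*P) r, ∑ w : Str (20*P) r,
        ((stepP vary sel (fun x => (fFin I x : ℕ)) I.2.2)^[t]
          (init.bind (fun x => PMF.pure (x, decide (x = I.2.2))))) (w, false) := by
    intro t ht
    apply derand init vary sel (fun I : Ins (20*P) r => fFin I) (fun I => I.2.2)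
    intro x0 θ
    exact hdet x0 θ t ht
  -- sum over time
  have hsum : (Fintype.card (Ins (20*P) r)) • (ENNReal.ofReal ((H:ℝ)/4)) ≤
      ∑ I : Ins (20*P) r, (1 + ∑' t : ℕ, ∑ w : Str (20*P) r,
        ((stepP vary sel (fun x => (fFin I x : ℕ)) I.2.2)^[t]
          (init.bind (fun x => PMF.pure (x, decide (x = I.2.2))))) (w, false)) := by
    calc (Fintype.card (Ins (20*P) r)) • (ENNReal.ofReal ((H:ℝ)/4))
        = ∑ t ∈ Finset.range H, (ENNReal.ofReal ((Fintype.card (Ins (20*P) r) : ℝ) / 4)) := by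
          rw [Finset.sum_const, Finset.card_range, nsmul_eq_mul, nsmul_eq_mul]
          rw [← ENNReal.ofReal_natCast, ← ENNReal.ofReal_mul (by positivity),
            ← ENNReal.ofReal_natCast, ← ENNReal.ofReal_mul (by positivity)]
          congr 1
          ring
      _ ≤ ∑ t ∈ Finset.range H, ∑ I : Ins (20*P) r, ∑ w : Str (20*P) r,
        ((stepP vary sel (fun x => (fFin I x : ℕ)) I.2.2)^[t]
          (init.bind (fun x => PMF.pure (x, decide (x = I.2.2))))) (w, false) := by
          apply Finset.sum_le_sum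
          intro t ht
          exact hder t (Finset.mem_range.mp ht)
      _ = ∑ I : Ins (20*P) r, ∑ t ∈ Finset.range H, ∑ w : Str (20*P) r,
        ((stepP vary sel (fun x => (fFin I x : ℕ)) I.2.2)^[t]
          (init.bind (fun x => PMF.pure (x, decide (x = I.2.2))))) (w, false) :=
          Finset.sum_comm
      _ ≤ _ := by
          apply Finset.sum_le_sum
          intro I _
          refine le_trans (ENNReal.sum_le_tsum _) ?_
          exact le_add_self
  have hne : (Finset.univ : Finset (Ins (20*P) r)).Nonempty :=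
    ⟨(fun _ => 0, 1, fun _ => false), Finset.mem_univ _⟩
  have hex := ENNReal.exists_le_of_sum_le (s := (Finset.univ : Finset (Ins (20*P) r)))
    (f := fun _ => ENNReal.ofReal ((H:ℝ)/4))
    (g := fun I => (1 + ∑' t : ℕ, ∑ w : Str (20*P) r,
        ((stepP vary sel (fun x => (fFin I x : ℕ)) I.2.2)^[t]
          (init.bind (fun x => PMF.pure (x, decide (x = I.2.2))))) (w, false))) hne (by
      rw [Finset.sum_const, Finset.card_univ]
      exact hsum)
  obtain ⟨I, _, hI⟩ := hex
  refine ⟨I.2.2, sig I.1 I.2.1, ?_⟩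
  have hfun : (fun x : Str (20*P) r => LO (fun j => x (sig I.1 I.2.1 j) = I.2.2 (sig I.1 I.2.1 j)))
      = (fun x => (fFin I x : ℕ)) := by
    funext x
    rfl
  rw [hfun]
  refine le_trans ?_ hI
  apply ENNReal.ofReal_le_ofReal
  have hlb : (P:ℝ)^2 < 100 * (H + 1) := by exact_mod_cast hHlb
  have hPr : (999:ℝ) ≤ P := by
    have : 999 ≤ P := by omega
    exact_mod_cast this
  have hr' : (r:ℝ) ≤ 60 := by exact_mod_cast le_of_lt hr
  push_cast
  nlinarith

end Pool.Agent.Lib.MP_c5d8fa_lc
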